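import Mathlib
import Pool.Agent.Helper82_Vir.Crit

set_option autoImplicit false

/-!
# The divergence theorem on a superlevel set
-/

namespace Pool.Agent.Helper59_Vir

open Pool.Agent.Helper42_Paneitz Pool.Agent.Helper82_Vir
open scoped Manifold ContDiff InnerProductSpace Topology
open Filter MeasureTheory Set

/-- a smooth approximation of the positive part -/
noncomputable def ph (ε t : ℝ) : ℝ := t * expNegInvGlue (ε⁻¹ * t)

theorem contDiff_ph (ε : ℝ) : ContDiff ℝ ∞ (ph ε) := by
  unfold ph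
  exact contDiff_id.mul (expNegInvGlue.contDiff.comp (contDiff_const.mul contDiff_id))

theorem ph_nonneg {ε : ℝ} (hε : 0 < ε) (t : ℝ) : 0 ≤ ph ε t := by
  unfold ph
  rcases le_or_gt t 0 with h | h
  · have : ε⁻¹ * t ≤ 0 := mul_nonpos_of_nonneg_of_nonpos (inv_pos.2 hε).le h
    rw [expNegInvGlue.zero_of_nonpos this, mul_zero]
  · exact mul_nonneg h.le (expNegInvGlue.nonneg _)

theorem ph_of_nonpos {ε : ℝ} (hε : 0 < ε) {t : ℝ} (h : t ≤ 0) : ph ε t = 0 := by
  unfold ph
  have : ε⁻¹ * t ≤ 0 := mul_nonpos_of_nonneg_of_nonpos (inv_pos.2 hε).le h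
  rw [expNegInvGlue.zero_of_nonpos this, mul_zero]

theorem glue_of_pos {t : ℝ} (h : 0 < t) : expNegInvGlue t = Real.exp (-t⁻¹) := by
  unfold expNegInvGlue
  rw [if_neg (not_le.2 h)]

theorem glue_le_one (t : ℝ) : expNegInvGlue t ≤ 1 := by
  rcases le_or_gt t 0 with h | h
  · rw [expNegInvGlue.zero_of_nonpos h]; norm_num
  · rw [glue_of_pos h, Real.exp_le_one_iff, neg_nonpos]
    exact (inv_pos.2 h).le

theorem ph_of_pos {ε : ℝ} (hε : 0 < ε) {t : ℝ} (h : 0 < t) : ph ε t = t * Real.exp (-(ε / t)) := by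
  unfold ph
  rw [glue_of_pos (mul_pos (inv_pos.2 hε) h)]
  congr 2
  have := h.ne'
  have := hε.ne'
  field_simp

theorem abs_ph_le {ε : ℝ} (hε : 0 < ε) (t : ℝ) : |ph ε t| ≤ |t| := by
  unfold ph
  rw [abs_mul, abs_of_nonneg (expNegInvGlue.nonneg _)]
  exact mul_le_of_le_one_right (abs_nonneg _) (glue_le_one _)

theorem deriv_ph_of_nonpos {ε : ℝ} (hε : 0 < ε) {t : ℝ} (h : t ≤ 0) : deriv (ph ε) t = 0 := by
  have hmin : IsLocalMin (ph ε) t := by
    refine Eventually.of_forall fun s => ?_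
    rw [ph_of_nonpos hε h]
    exact ph_nonneg hε s
  exact hmin.deriv_eq_zero

theorem deriv_ph_of_pos {ε : ℝ} (hε : 0 < ε) {t : ℝ} (h : 0 < t) :
    deriv (ph ε) t = (1 + ε / t) * Real.exp (-(ε / t)) := by
  have h1 : ph ε =ᶠ[𝓝 t] fun s => s * Real.exp (-(ε * s⁻¹)) := by
    filter_upwards [lt_mem_nhds h] with s hs
    rw [ph_of_pos hε hs, div_eq_mul_inv]
  rw [h1.deriv_eq]
  have h2 : HasDerivAt (fun s : ℝ => -(ε * s⁻¹)) (-(ε * (-(t ^ 2)⁻¹))) t :=
    ((hasDerivAt_inv h.ne').const_mul ε).neg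
  have h3 := (hasDerivAt_id t).mul h2.exp
  have h4 : HasDerivAt (fun s => s * Real.exp (-(ε * s⁻¹)))
      (1 * Real.exp (-(ε * t⁻¹)) + t * (Real.exp (-(ε * t⁻¹)) * (-(ε * (-(t ^ 2)⁻¹))))) t := h3
  rw [h4.deriv, ← div_eq_mul_inv]
  have := h.ne'
  field_simp

theorem abs_deriv_ph_le {ε : ℝ} (hε : 0 < ε) (t : ℝ) : |deriv (ph ε) t| ≤ 1 := by
  rcases le_or_gt t 0 with h | h
  · rw [deriv_ph_of_nonpos hε h]; norm_num
  · rw [deriv_ph_of_pos hε h, abs_of_nonneg (by positivity), Real.exp_neg, ← div_eq_mul_inv,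
      div_le_one (Real.exp_pos _)]
    have := Real.add_one_le_exp (ε / t)
    linarith

theorem tendsto_ph (t : ℝ) : Tendsto (fun ε => ph ε t) (𝓝[>] 0) (𝓝 (if 0 < t then t else 0)) := by
  rcases le_or_gt t 0 with h | h
  · rw [if_neg (not_lt.2 h)]
    refine tendsto_const_nhds.congr' ?_
    filter_upwards [self_mem_nhdsWithin] with ε hε
    rw [ph_of_nonpos hε h]
  · rw [if_pos h]
    have hc : Continuous fun ε : ℝ => t * Real.exp (-(ε / t)) := by fun_prop
    have h1 := (hc.tendsto 0).mono_left (nhdsWithin_le_nhds (s := Ioi 0))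
    have h2 : t * Real.exp (-(0 / t)) = t := by simp
    rw [h2] at h1
    refine h1.congr' ?_
    filter_upwards [self_mem_nhdsWithin] with ε hε
    rw [ph_of_pos hε h]

theorem tendsto_deriv_ph (t : ℝ) :
    Tendsto (fun ε => deriv (ph ε) t) (𝓝[>] 0) (𝓝 (if 0 < t then 1 else 0)) := by
  rcases le_or_gt t 0 with h | h
  · rw [if_neg (not_lt.2 h)]
    refine tendsto_const_nhds.congr' ?_
    filter_upwards [self_mem_nhdsWithin] with ε hε
    rw [deriv_ph_of_nonpos hε h]
  · rw [if_pos h]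
    have hc : Continuous fun ε : ℝ => (1 + ε / t) * Real.exp (-(ε / t)) := by fun_prop
    have h1 := (hc.tendsto 0).mono_left (nhdsWithin_le_nhds (s := Ioi 0))
    have h2 : (1 + 0 / t) * Real.exp (-(0 / t)) = 1 := by simp
    rw [h2] at h1
    refine h1.congr' ?_
    filter_upwards [self_mem_nhdsWithin] with ε hε
    rw [deriv_ph_of_pos hε h]

/-- **Divergence theorem on the superlevel set** `{F > 0}` for the field `F V`, which vanishes on
its boundary. -/
theorem integral_trunc {F : S4 → ℝ} (hF : Sm F) {V : S4 → E5} (hV : SmV V)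
    (hVt : ∀ x : S4, ⟪(x : E5), V x⟫_ℝ = 0) :
    ∫ x, (if 0 < F x then dd F x (V x) + F x * dv V x else 0) ∂sig = 0 := by
  have hFc := continuous_of_sm hF
  have hVc := hV.continuous
  have hd := continuous_dd_field hF hVc
  have hdv := continuous_dv hV
  have hlim : Tendsto (fun ε => ∫ x, (deriv (ph ε) (F x) * dd F x (V x) +
      ph ε (F x) * dv V x) ∂sig) (𝓝[>] 0)
      (𝓝 (∫ x, (if 0 < F x then dd F x (V x) + F x * dv V x else 0) ∂sig)) := by
    refine tendsto_integral_filter_of_dominated_convergence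
      (fun x => |dd F x (V x)| + |F x| * |dv V x|) ?_ ?_ ?_ (Eventually.of_forall fun x => ?_)
    · filter_upwards [self_mem_nhdsWithin] with ε hε
      have h1 : Continuous (deriv (ph ε)) := (contDiff_ph ε).continuous_deriv (by simp)
      have h2 : Continuous (ph ε) := (contDiff_ph ε).continuous
      exact (((h1.comp hFc).fun_mul hd).fun_add
        ((h2.comp hFc).fun_mul hdv)).aestronglyMeasurable
    · filter_upwards [self_mem_nhdsWithin] with ε hε
      refine Eventually.of_forall fun x => ?_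
      have h1 := abs_deriv_ph_le (show 0 < ε from hε) (F x)
      have h2 := abs_ph_le (show 0 < ε from hε) (F x)
      rw [Real.norm_eq_abs]
      refine (abs_add_le _ _).trans ?_
      rw [abs_mul, abs_mul]
      exact add_le_add (mul_le_of_le_one_left (abs_nonneg _) h1)
        (mul_le_mul_of_nonneg_right h2 (abs_nonneg _))
    · exact integrable_cont (hd.abs.fun_add (hFc.abs.fun_mul hdv.abs))
    · have h1 := ((tendsto_deriv_ph (F x)).mul_const (dd F x (V x))).add
        ((tendsto_ph (F x)).mul_const (dv V x))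
      have h2 : (if 0 < F x then dd F x (V x) + F x * dv V x else 0) =
          (if 0 < F x then 1 else 0) * dd F x (V x) + (if 0 < F x then F x else 0) * dv V x := by
        split_ifs <;> ring
      rw [h2]
      exact h1
  have hz : ∀ ε : ℝ, ∫ x, (deriv (ph ε) (F x) * dd F x (V x) + ph ε (F x) * dv V x) ∂sig = 0 := by
    intro ε
    have hs : Sm (fun x => ph ε (F x)) := sm_comp hF (contDiff_ph ε)
    have h1 := integral_dv_tangent (smV_smul hs hV) (fun x => by
      rw [inner_smul_right, hVt x, mul_zero])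
    have h2 : ∀ x, dv (fun x => ph ε (F x) • V x) x =
        deriv (ph ε) (F x) * dd F x (V x) + ph ε (F x) * dv V x := by
      intro x
      rw [dv_smul hs hV, dd_comp hF (contDiff_ph ε)]
    simpa only [h2] using h1
  simp only [hz] at hlim
  exact (tendsto_nhds_unique hlim tendsto_const_nhds)

end Pool.Agent.Helper59_Vir
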