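import Mathlib
import Pool.Agent.Helper59_Vir.Trunc

set_option autoImplicit false

/-!
# A two-field criterion for non-existence: positive and negative parts of the curvature
-/

namespace Pool.Agent.Helper59_Vir

open Pool.Agent.Helper42_Paneitz Pool.Agent.Helper82_Vir
open scoped Manifold ContDiff InnerProductSpace Topology
open Filter MeasureTheory Set

/-- **Two-field criterion.** -/
theorem criterion2 {Q : S4 → ℝ} (hQ : Sm Q) {V W : S4 → E5} (hV : SmV V) (hW : SmV W)
    (hVt : ∀ x : S4, ⟪(x : E5), V x⟫_ℝ = 0) (hWt : ∀ x : S4, ⟪(x : E5), W x⟫_ℝ = 0)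
    {g k : S4 → ℝ} (hg : Continuous g) (hk : Continuous k)
    (h1 : ∀ x, 0 < Q x → dd Q x (V x) + Q x * dv V x ≤ 4 * g x * Q x)
    (h2 : ∀ x, Q x < 0 → dd Q x (W x) + Q x * dv W x ≤ 4 * k x * Q x)
    (hpp : ∀ x y : S4, 0 < Q x → 0 < Q y →
      (g x + g y) / 2 * ‖(x : E5) - (y : E5)‖ ^ 2 ≤ ⟪V x - V y, (x : E5) - (y : E5)⟫_ℝ)
    (hnn : ∀ x y : S4, Q x < 0 → Q y < 0 →
      (k x + k y) / 2 * ‖(x : E5) - (y : E5)‖ ^ 2 ≤ ⟪W x - W y, (x : E5) - (y : E5)⟫_ℝ)
    (hpn : ∀ x y : S4, 0 < Q x → Q y < 0 →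
      ⟪V x - W y, (x : E5) - (y : E5)⟫_ℝ ≤ (g x + k y) / 2 * ‖(x : E5) - (y : E5)‖ ^ 2)
    (hs : (∃ x, 0 < Q x ∧ dd Q x (V x) + Q x * dv V x < 4 * g x * Q x) ∨
      (∃ x, Q x < 0 ∧ dd Q x (W x) + Q x * dv W x < 4 * k x * Q x) ∨
      (∃ x y : S4, 0 < Q x ∧ 0 < Q y ∧
        (g x + g y) / 2 * ‖(x : E5) - (y : E5)‖ ^ 2 < ⟪V x - V y, (x : E5) - (y : E5)⟫_ℝ) ∨
      (∃ x y : S4, Q x < 0 ∧ Q y < 0 ∧
        (k x + k y) / 2 * ‖(x : E5) - (y : E5)‖ ^ 2 < ⟪W x - W y, (x : E5) - (y : E5)⟫_ℝ) ∨
      (∃ x y : S4, 0 < Q x ∧ Q y < 0 ∧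
        ⟪V x - W y, (x : E5) - (y : E5)⟫_ℝ < (g x + k y) / 2 * ‖(x : E5) - (y : E5)‖ ^ 2)) :
    ¬ IsPaneitzCurvature Q := by
  rintro ⟨-, u, hu0, hu⟩
  have hus : Sm u := sm_of_contMDiff hu0
  set E : S4 → ℝ := fun x => Real.exp (4 * u x) with hE
  have hEs : Sm E := sm_exp4 hus
  have hEpos : ∀ x, 0 < E x := fun x => Real.exp_pos _
  set F : S4 → ℝ := fun x => Q x * E x with hF
  have hFs : Sm F := sm_mul hQ hEs
  have hFP : (fun z => paneitz u z + 6) = F := by
    funext z
    rw [hu z]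
    simp [hF, hE]
  have hVc := hV.continuous
  have hWc := hW.continuous
  have hFc := continuous_of_sm hFs
  have hQc := continuous_of_sm hQ
  have hEc := continuous_of_sm hEs
  have hFpos : ∀ x, 0 < Q x → 0 < F x := fun x hx => mul_pos hx (hEpos x)
  have hFneg : ∀ x, Q x < 0 → F x < 0 := fun x hx => mul_neg_of_neg_of_pos hx (hEpos x)
  -- positive and negative parts
  set P : S4 → ℝ := fun x => max (F x) 0 with hP
  set N : S4 → ℝ := fun x => max (-F x) 0 with hN
  have hPc : Continuous P := hFc.max continuous_const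
  have hNc : Continuous N := hFc.fun_neg.max continuous_const
  set Z : S4 → E5 := fun x => P x • V x - N x • W x with hZ
  have hZc : Continuous Z := (hPc.smul hVc).sub (hNc.smul hWc)
  have hZt : ∀ x : S4, ⟪(x : E5), Z x⟫_ℝ = 0 := by
    intro x
    simp only [hZ, inner_sub_right, inner_smul_right, hVt x, hWt x, mul_zero, sub_zero]
  set h : S4 → ℝ := fun x => g x * P x - k x * N x with hh
  have hhc : Continuous h := (hg.fun_mul hPc).sub (hk.fun_mul hNc)
  have hZp : ∀ x, 0 < Q x → Z x = F x • V x ∧ h x = g x * F x := by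
    intro x hx
    have h0 := hFpos x hx
    have e1 : P x = F x := max_eq_left h0.le
    have e2 : N x = 0 := max_eq_right (by linarith)
    simp only [hZ, hh, e1, e2, zero_smul, mul_zero, sub_zero, and_self]
  have hZn : ∀ x, Q x < 0 → Z x = F x • W x ∧ h x = k x * F x := by
    intro x hx
    have h0 := hFneg x hx
    have e1 : P x = 0 := max_eq_right h0.le
    have e2 : N x = -F x := max_eq_left (by linarith)
    simp only [hZ, hh, e1, e2, zero_smul, mul_zero, zero_sub, neg_smul, neg_neg, mul_neg,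
      and_self]
  have hZ0 : ∀ x, Q x = 0 → Z x = 0 ∧ h x = 0 ∧ F x = 0 := by
    intro x hx
    have h0 : F x = 0 := by simp only [hF, hx, zero_mul]
    have e1 : P x = 0 := by simp only [hP, h0, max_self]
    have e2 : N x = 0 := by simp only [hN, h0, neg_zero, max_self]
    simp only [hZ, hh, e1, e2, zero_smul, mul_zero, sub_zero, h0, and_self]
  -- the two-point function for a pair of fields
  have hpair : ∀ (x y : S4) (v w : E5) (c d : ℝ), ⟪(x : E5), v⟫_ℝ = 0 → ⟪(y : E5), w⟫_ℝ = 0 →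
      -(F y * (F x * ⟪v, (y : E5)⟫_ℝ) + F x * (F y * ⟪w, (x : E5)⟫_ℝ)) -
        (1 - ⟪(x : E5), (y : E5)⟫_ℝ) * (c * F x * F y + d * F y * F x) =
      F x * F y * (⟪v - w, (x : E5) - (y : E5)⟫_ℝ - (c + d) / 2 * ‖(x : E5) - (y : E5)‖ ^ 2) := by
    intro x y v w c d hv hw
    rw [real_inner_comm] at hv hw
    rw [norm_sub_sq_S4, inner_sub_left, inner_sub_right, inner_sub_right, hv, hw]
    ring
  have hspp : ∀ x y : S4, 0 < Q x → 0 < Q y → slack F h Z x y = F x * F y *
      (⟪V x - V y, (x : E5) - (y : E5)⟫_ℝ - (g x + g y) / 2 * ‖(x : E5) - (y : E5)‖ ^ 2) := by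
    intro x y hx hy
    unfold slack
    rw [(hZp x hx).1, (hZp x hx).2, (hZp y hy).1, (hZp y hy).2, real_inner_smul_left,
      real_inner_smul_left]
    exact hpair x y _ _ _ _ (hVt x) (hVt y)
  have hsnn : ∀ x y : S4, Q x < 0 → Q y < 0 → slack F h Z x y = F x * F y *
      (⟪W x - W y, (x : E5) - (y : E5)⟫_ℝ - (k x + k y) / 2 * ‖(x : E5) - (y : E5)‖ ^ 2) := by
    intro x y hx hy
    unfold slack
    rw [(hZn x hx).1, (hZn x hx).2, (hZn y hy).1, (hZn y hy).2, real_inner_smul_left,
      real_inner_smul_left]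
    exact hpair x y _ _ _ _ (hWt x) (hWt y)
  have hspn : ∀ x y : S4, 0 < Q x → Q y < 0 → slack F h Z x y = F x * F y *
      (⟪V x - W y, (x : E5) - (y : E5)⟫_ℝ - (g x + k y) / 2 * ‖(x : E5) - (y : E5)‖ ^ 2) := by
    intro x y hx hy
    unfold slack
    rw [(hZp x hx).1, (hZp x hx).2, (hZn y hy).1, (hZn y hy).2, real_inner_smul_left,
      real_inner_smul_left]
    exact hpair x y _ _ _ _ (hVt x) (hWt y)
  have hscomm : ∀ x y : S4, slack F h Z x y = slack F h Z y x := by
    intro x y
    unfold slack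
    rw [real_inner_comm (x : E5) (y : E5)]
    ring
  have hs0 : ∀ x y : S4, 0 ≤ slack F h Z x y := by
    have hz : ∀ x y : S4, Q x = 0 → slack F h Z x y = 0 := by
      intro x y hx
      obtain ⟨a1, a2, a3⟩ := hZ0 x hx
      unfold slack
      rw [a1, a2, a3, inner_zero_left]
      ring
    intro x y
    rcases lt_trichotomy (Q x) 0 with hx | hx | hx
    · rcases lt_trichotomy (Q y) 0 with hy | hy | hy
      · rw [hsnn x y hx hy]
        exact mul_nonneg (mul_pos_of_neg_of_neg (hFneg x hx) (hFneg y hy)).le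
          (sub_nonneg.2 (hnn x y hx hy))
      · rw [hscomm, hz y x hy]
      · rw [hscomm, hspn y x hy hx]
        exact mul_nonneg_of_nonpos_of_nonpos
          (mul_neg_of_pos_of_neg (hFpos y hy) (hFneg x hx)).le
          (sub_nonpos.2 (hpn y x hy hx))
    · rw [hz x y hx]
    · rcases lt_trichotomy (Q y) 0 with hy | hy | hy
      · rw [hspn x y hx hy]
        exact mul_nonneg_of_nonpos_of_nonpos
          (mul_neg_of_pos_of_neg (hFpos x hx) (hFneg y hy)).le
          (sub_nonpos.2 (hpn x y hx hy))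
      · rw [hscomm, hz y x hy]
      · rw [hspp x y hx hy]
        exact mul_nonneg (mul_pos (hFpos x hx) (hFpos y hy)).le
          (sub_nonneg.2 (hpp x y hx hy))
  have hvir := virial hus hZc hZt hhc (by
    intro x y
    rw [hFP]
    exact hs0 x y)
  rw [hFP] at hvir
  -- the one-point part
  have htV := integral_trunc hFs hV hVt
  have htW := integral_trunc (sm_neg hFs) hW hWt
  set a : S4 → ℝ := fun x => 4 * g x * Q x - (dd Q x (V x) + Q x * dv V x) with ha
  set b : S4 → ℝ := fun x => 4 * k x * Q x - (dd Q x (W x) + Q x * dv W x) with hb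
  have hac : Continuous a := ((continuous_const.fun_mul hg).fun_mul hQc).sub
    ((continuous_dd_field hQ hVc).fun_add (hQc.fun_mul (continuous_dv hV)))
  have hbc : Continuous b := ((continuous_const.fun_mul hk).fun_mul hQc).sub
    ((continuous_dd_field hQ hWc).fun_add (hQc.fun_mul (continuous_dv hW)))
  set TV : S4 → ℝ := fun x => if 0 < F x then dd F x (V x) + F x * dv V x else 0 with hTV
  set TW : S4 → ℝ := fun x =>
    if 0 < -F x then dd (fun x => -F x) x (W x) + (-F x) * dv W x else 0 with hTW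
  have hdZ : Continuous fun x => dd u x (Z x) := continuous_dd_field hus hZc
  set D : S4 → ℝ := fun x => 4 * (dd u x (Z x) + h x) - TV x + TW x with hD
  have hdF : ∀ (x : S4) (v : E5), dd F x v = Q x * (4 * E x * dd u x v) + E x * dd Q x v := by
    intro x v
    simp only [hF]
    rw [dd_mul hQ hEs, hE, dd_exp4 hus]
  have hDp : ∀ x, 0 < Q x → D x = E x * a x := by
    intro x hx
    have h0 := hFpos x hx
    have h3 : ¬ (0 < -F x) := by linarith
    simp only [hD, hTV, hTW, if_pos h0, if_neg h3]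
    rw [(hZp x hx).1, (hZp x hx).2, dd_smul, hdF]
    simp only [ha, hF]
    ring
  have hDn : ∀ x, Q x < 0 → D x = E x * b x := by
    intro x hx
    have h0 := hFneg x hx
    have h3 : ¬ (0 < F x) := by linarith
    have h4 : 0 < -F x := by linarith
    simp only [hD, hTV, hTW, if_pos h4, if_neg h3]
    rw [(hZn x hx).1, (hZn x hx).2, dd_smul, dd_fun_neg hFs, hdF]
    simp only [hb, hF]
    ring
  have hDz : ∀ x, Q x = 0 → D x = 0 := by
    intro x hx
    obtain ⟨a1, a2, a3⟩ := hZ0 x hx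
    simp only [hD, hTV, hTW, a1, a2, a3, dd_zero, lt_irrefl, if_false, neg_zero, add_zero,
      mul_zero, sub_zero]
  have hTVi : Integrable TV sig := by
    have hc : Continuous fun x => dd F x (V x) + F x * dv V x :=
      (continuous_dd_field hFs hVc).fun_add (hFc.fun_mul (continuous_dv hV))
    have hm : MeasurableSet {x : S4 | 0 < F x} := (isOpen_lt continuous_const hFc).measurableSet
    exact ((integrable_cont hc).indicator hm).congr (Eventually.of_forall fun x => by
      simp only [hTV, Set.indicator_apply, Set.mem_setOf_eq])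
  have hTWi : Integrable TW sig := by
    have hc : Continuous fun x => dd (fun x => -F x) x (W x) + (-F x) * dv W x :=
      (continuous_dd_field (sm_neg hFs) hWc).fun_add (hFc.fun_neg.fun_mul (continuous_dv hW))
    have hm : MeasurableSet {x : S4 | 0 < -F x} :=
      (isOpen_lt continuous_const hFc.fun_neg).measurableSet
    exact ((integrable_cont hc).indicator hm).congr (Eventually.of_forall fun x => by
      simp only [hTW, Set.indicator_apply, Set.mem_setOf_eq])
  have hmain : Integrable (fun x => 4 * (dd u x (Z x) + h x)) sig :=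
    (integrable_cont (hdZ.fun_add hhc)).const_mul 4
  have hDi : Integrable D sig := (hmain.sub hTVi).add hTWi
  have hDint : ∫ x, D x ∂sig = 4 * ∫ x, (dd u x (Z x) + h x) ∂sig := by
    have e1 : ∫ x, D x ∂sig = ∫ x, (4 * (dd u x (Z x) + h x) - TV x) ∂sig + ∫ x, TW x ∂sig :=
      integral_add (hmain.sub hTVi) hTWi
    have e2 : ∫ x, (4 * (dd u x (Z x) + h x) - TV x) ∂sig =
        ∫ x, 4 * (dd u x (Z x) + h x) ∂sig - ∫ x, TV x ∂sig := integral_sub hmain hTVi
    rw [e1, e2, htV, htW, integral_const_mul]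
    ring
  have hap : ∀ x, 0 < Q x → 0 ≤ a x := fun x hx => by
    have := h1 x hx
    simp only [ha]
    linarith
  have hbp : ∀ x, Q x < 0 → 0 ≤ b x := fun x hx => by
    have := h2 x hx
    simp only [hb]
    linarith
  have hD0 : ∀ x, 0 ≤ D x := by
    intro x
    rcases lt_trichotomy (Q x) 0 with hx | hx | hx
    · rw [hDn x hx]; exact mul_nonneg (hEpos x).le (hbp x hx)
    · rw [hDz x hx]
    · rw [hDp x hx]; exact mul_nonneg (hEpos x).le (hap x hx)
  have hglue : Continuous expNegInvGlue := (expNegInvGlue.contDiff (n := 0)).continuous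
  have hDi0 : 0 ≤ ∫ x, D x ∂sig := integral_nonneg hD0
  have hS := continuous_slack hFc hhc hZc
  have hSi : 0 ≤ ∫ x, ∫ y, slack F h Z x y ∂sig ∂sig :=
    integral_nonneg fun x => integral_nonneg fun y => hs0 x y
  have hm := msig_pos
  have hcase1 : 0 < ∫ x, D x ∂sig → False := by
    intro h4
    have h5 : 0 < ∫ x, (dd u x (Z x) + h x) ∂sig := by linarith
    have h6 : 0 < 24 * msig * ∫ x, (dd u x (Z x) + h x) ∂sig := by positivity
    linarith
  have hcase2 : ∀ x y : S4, 0 < slack F h Z x y → False := by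
    intro x y hxy
    have h4 : 0 < ∫ x, ∫ y, slack F h Z x y ∂sig ∂sig :=
      double_pos (f := fun x y => slack F h Z x y) hS hs0 (x₀ := x) (y₀ := y) hxy
    have h5 : 0 ≤ ∫ x, (dd u x (Z x) + h x) ∂sig := by linarith
    have h6 : 0 ≤ 24 * msig * ∫ x, (dd u x (Z x) + h x) ∂sig := by positivity
    linarith
  rcases hs with ⟨x, hx, hx1⟩ | ⟨x, hx, hx1⟩ | ⟨x, y, hx, hy, hxy⟩ | ⟨x, y, hx, hy, hxy⟩ |
    ⟨x, y, hx, hy, hxy⟩
  · apply hcase1
    have hc : Continuous fun x => expNegInvGlue (Q x) * (E x * a x) :=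
      (hglue.comp hQc).fun_mul (hEc.fun_mul hac)
    have hle : ∀ x, expNegInvGlue (Q x) * (E x * a x) ≤ D x := by
      intro x
      rcases le_or_gt (Q x) 0 with hx | hx
      · rw [expNegInvGlue.zero_of_nonpos hx, zero_mul]; exact hD0 x
      · rw [hDp x hx]
        exact mul_le_of_le_one_left (mul_nonneg (hEpos x).le (hap x hx)) (glue_le_one _)
    have hnn0 : ∀ x, 0 ≤ expNegInvGlue (Q x) * (E x * a x) := by
      intro x
      rcases le_or_gt (Q x) 0 with hx | hx
      · rw [expNegInvGlue.zero_of_nonpos hx, zero_mul]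
      · exact mul_nonneg (expNegInvGlue.nonneg _) (mul_nonneg (hEpos x).le (hap x hx))
    have hpos := single_pos hc hnn0 (x₀ := x) (by
      have : 0 < a x := by simp only [ha]; linarith
      exact mul_pos (expNegInvGlue.pos_of_pos hx) (mul_pos (hEpos x) this))
    exact hpos.trans_le (integral_mono (integrable_cont hc) hDi hle)
  · apply hcase1
    have hc : Continuous fun x => expNegInvGlue (-Q x) * (E x * b x) :=
      (hglue.comp hQc.fun_neg).fun_mul (hEc.fun_mul hbc)
    have hle : ∀ x, expNegInvGlue (-Q x) * (E x * b x) ≤ D x := by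
      intro x
      rcases le_or_gt 0 (Q x) with hx | hx
      · rw [expNegInvGlue.zero_of_nonpos (by linarith), zero_mul]; exact hD0 x
      · rw [hDn x hx]
        exact mul_le_of_le_one_left (mul_nonneg (hEpos x).le (hbp x hx)) (glue_le_one _)
    have hnn0 : ∀ x, 0 ≤ expNegInvGlue (-Q x) * (E x * b x) := by
      intro x
      rcases le_or_gt 0 (Q x) with hx | hx
      · rw [expNegInvGlue.zero_of_nonpos (by linarith), zero_mul]
      · exact mul_nonneg (expNegInvGlue.nonneg _) (mul_nonneg (hEpos x).le (hbp x hx))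
    have hpos := single_pos hc hnn0 (x₀ := x) (by
      have : 0 < b x := by simp only [hb]; linarith
      exact mul_pos (expNegInvGlue.pos_of_pos (by linarith)) (mul_pos (hEpos x) this))
    exact hpos.trans_le (integral_mono (integrable_cont hc) hDi hle)
  · refine hcase2 x y ?_
    rw [hspp x y hx hy]
    exact mul_pos (mul_pos (hFpos x hx) (hFpos y hy)) (sub_pos.2 hxy)
  · refine hcase2 x y ?_
    rw [hsnn x y hx hy]
    exact mul_pos (mul_pos_of_neg_of_neg (hFneg x hx) (hFneg y hy)) (sub_pos.2 hxy)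
  · refine hcase2 x y ?_
    rw [hspn x y hx hy]
    exact mul_pos_of_neg_of_neg (mul_neg_of_pos_of_neg (hFpos x hx) (hFneg y hy))
      (sub_neg.2 hxy)

end Pool.Agent.Helper59_Vir
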