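import Mathlib
import Pool.Agent.Helper59_Vir.Cap

set_option autoImplicit false

/-!
# Two conformal fields, and zonal functions
-/

namespace Pool.Agent.Helper59_Vir

open Pool.Agent.Helper42_Paneitz Pool.Agent.Helper82_Vir
open scoped Manifold ContDiff InnerProductSpace Topology
open Filter MeasureTheory Set

theorem smV_neg {V : S4 → E5} (hV : SmV V) : SmV (fun x => - V x) := fun i => sm_neg (hV i)

theorem dv_neg {V : S4 → E5} (hV : SmV V) (x : S4) : dv (fun x => - V x) x = - dv V x := by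
  unfold dv
  rw [← Finset.sum_neg_distrib]
  exact Finset.sum_congr rfl fun i _ => dd_fun_neg (hV i) x _

theorem cf_pair2 (a b : E5) {A B : E5 →L[ℝ] E5} (hA : ∀ v, ⟪A v, v⟫_ℝ = 0)
    (hB : ∀ v, ⟪B v, v⟫_ℝ = 0) (x y : S4) :
    ⟪- cf a A x - - cf b B y, (x : E5) - (y : E5)⟫_ℝ =
      (⟪a, (x : E5)⟫_ℝ + ⟪b, (y : E5)⟫_ℝ) / 2 * ‖(x : E5) - (y : E5)‖ ^ 2 -
      (⟪a - b, (x : E5) - (y : E5)⟫_ℝ - ⟪(A - B) (x : E5), (y : E5)⟫_ℝ) := by
  have hx := cf_tangent a hA x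
  have hy := cf_tangent b hB y
  rw [real_inner_comm] at hx hy
  have h1 : ⟪cf a A x, (y : E5)⟫_ℝ = ⟪a, (y : E5)⟫_ℝ - ⟪a, (x : E5)⟫_ℝ * ⟪(x : E5), (y : E5)⟫_ℝ +
      ⟪A (x : E5), (y : E5)⟫_ℝ := by
    unfold cf; rw [inner_add_left, inner_sub_left, real_inner_smul_left]
  have h2 : ⟪cf b B y, (x : E5)⟫_ℝ = ⟪b, (x : E5)⟫_ℝ - ⟪b, (y : E5)⟫_ℝ * ⟪(x : E5), (y : E5)⟫_ℝ -
      ⟪B (x : E5), (y : E5)⟫_ℝ := by
    unfold cf
    rw [inner_add_left, inner_sub_left, real_inner_smul_left, real_inner_comm (y : E5) (x : E5),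
      skew_polar hB (y : E5) (x : E5)]
    ring
  have h3 : ⟪(A - B) (x : E5), (y : E5)⟫_ℝ =
      ⟪A (x : E5), (y : E5)⟫_ℝ - ⟪B (x : E5), (y : E5)⟫_ℝ := by
    rw [_root_.sub_apply, inner_sub_left]
  rw [norm_sub_sq_S4, h3]
  simp only [inner_sub_left, inner_sub_right, inner_neg_left]
  rw [h1, h2, hx, hy]
  ring

/-- **Two conformal fields.** -/
theorem two_field {Q : S4 → ℝ} (hQ : Sm Q) (a b : E5) {A B : E5 →L[ℝ] E5}
    (hA : ∀ v, ⟪A v, v⟫_ℝ = 0) (hB : ∀ v, ⟪B v, v⟫_ℝ = 0)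
    (h1 : ∀ x, 0 < Q x → 0 ≤ dd Q x (cf a A x)) (h2 : ∀ x, Q x < 0 → 0 ≤ dd Q x (cf b B x))
    (h3 : ∀ x y : S4, 0 < Q x → Q y < 0 →
      ⟪(A - B) (x : E5), (y : E5)⟫_ℝ ≤ ⟪a - b, (x : E5) - (y : E5)⟫_ℝ)
    (hs : (∃ x, 0 < Q x ∧ 0 < dd Q x (cf a A x)) ∨ (∃ x, Q x < 0 ∧ 0 < dd Q x (cf b B x)) ∨
      ∃ x y : S4, 0 < Q x ∧ Q y < 0 ∧
        ⟪(A - B) (x : E5), (y : E5)⟫_ℝ < ⟪a - b, (x : E5) - (y : E5)⟫_ℝ) :
    ¬ IsPaneitzCurvature Q := by
  have hdva : ∀ x, dv (fun x => - cf a A x) x = 4 * ⟪a, (x : E5)⟫_ℝ := by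
    intro x
    rw [dv_neg (smV_cf a A), dv_cf a hA]
    ring
  have hdvb : ∀ x, dv (fun x => - cf b B x) x = 4 * ⟪b, (x : E5)⟫_ℝ := by
    intro x
    rw [dv_neg (smV_cf b B), dv_cf b hB]
    ring
  have hca : ∀ x y : S4, ⟪- cf a A x - - cf a A y, (x : E5) - (y : E5)⟫_ℝ =
      (⟪a, (x : E5)⟫_ℝ + ⟪a, (y : E5)⟫_ℝ) / 2 * ‖(x : E5) - (y : E5)‖ ^ 2 := by
    intro x y
    rw [cf_pair2 a a hA hA]
    simp
  have hcb : ∀ x y : S4, ⟪- cf b B x - - cf b B y, (x : E5) - (y : E5)⟫_ℝ =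
      (⟪b, (x : E5)⟫_ℝ + ⟪b, (y : E5)⟫_ℝ) / 2 * ‖(x : E5) - (y : E5)‖ ^ 2 := by
    intro x y
    rw [cf_pair2 b b hB hB]
    simp
  refine criterion2 hQ (V := fun x => - cf a A x) (W := fun x => - cf b B x)
    (smV_neg (smV_cf a A)) (smV_neg (smV_cf b B)) (fun x => ?_) (fun x => ?_)
    (g := fun x => ⟪a, (x : E5)⟫_ℝ) (k := fun x => ⟪b, (x : E5)⟫_ℝ)
    (continuous_const.inner continuous_subtype_val)
    (continuous_const.inner continuous_subtype_val)
    (fun x hx => ?_) (fun x hx => ?_) (fun x y _ _ => (hca x y).ge) (fun x y _ _ => (hcb x y).ge)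
    (fun x y hx hy => ?_) ?_
  · rw [inner_neg_right, cf_tangent a hA, neg_zero]
  · rw [inner_neg_right, cf_tangent b hB, neg_zero]
  · have := h1 x hx
    rw [hdva, dd_neg]
    linarith
  · have := h2 x hx
    rw [hdvb, dd_neg]
    linarith
  · have := h3 x y hx hy
    rw [cf_pair2 a b hA hB]
    linarith
  · rcases hs with ⟨x, hx, hx1⟩ | ⟨x, hx, hx1⟩ | ⟨x, y, hx, hy, hxy⟩
    · refine Or.inl ⟨x, hx, ?_⟩
      rw [hdva, dd_neg]
      linarith
    · refine Or.inr (Or.inl ⟨x, hx, ?_⟩)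
      rw [hdvb, dd_neg]
      linarith
    · refine Or.inr (Or.inr (Or.inr (Or.inr ⟨x, y, hx, hy, ?_⟩)))
      rw [cf_pair2 a b hA hB]
      linarith

theorem deriv_glue_nonneg (t : ℝ) : 0 ≤ deriv expNegInvGlue t := expNegInvGlue.monotone.deriv_nonneg

theorem deriv_glue_of_nonpos {t : ℝ} (h : t ≤ 0) : deriv expNegInvGlue t = 0 := by
  have hmin : IsLocalMin expNegInvGlue t := by
    refine Eventually.of_forall fun s => ?_
    rw [expNegInvGlue.zero_of_nonpos h]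
    exact expNegInvGlue.nonneg s
  exact hmin.deriv_eq_zero

theorem glue_comp_deriv {q : ℝ → ℝ} (hq : ContDiff ℝ ∞ q) (t : ℝ) :
    HasDerivAt (fun t => expNegInvGlue (q t)) (deriv expNegInvGlue (q t) * deriv q t) t := by
  have h1 : HasDerivAt expNegInvGlue (deriv expNegInvGlue (q t)) (q t) :=
    (((expNegInvGlue.contDiff (n := ⊤)).differentiable (by simp)) _).hasDerivAt
  have h2 : HasDerivAt q (deriv q t) t := ((hq.differentiable (by simp)) t).hasDerivAt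
  exact h1.comp t h2

/-- a profile that is nondecreasing where it is positive -/
theorem upper {q : ℝ → ℝ} (hq : ContDiff ℝ ∞ q)
    (hm : ∀ t ∈ Ioo (-1 : ℝ) 1, 0 < q t → 0 ≤ deriv q t) {s t : ℝ} (hs : s ∈ Icc (-1 : ℝ) 1)
    (ht : t ∈ Icc (-1 : ℝ) 1) (hst : s ≤ t) (h0 : 0 < q s) : 0 < q t := by
  have hmono : MonotoneOn (fun t => expNegInvGlue (q t)) (Icc (-1 : ℝ) 1) := by
    refine monotoneOn_of_deriv_nonneg (convex_Icc _ _) ?_ ?_ ?_
    · exact (((expNegInvGlue.contDiff (n := 0)).continuous).comp hq.continuous).continuousOn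
    · exact fun x _ => (glue_comp_deriv hq x).differentiableAt.differentiableWithinAt
    · intro x hx
      rw [interior_Icc] at hx
      rw [(glue_comp_deriv hq x).deriv]
      rcases le_or_gt (q x) 0 with h | h
      · rw [deriv_glue_of_nonpos h, zero_mul]
      · exact mul_nonneg (deriv_glue_nonneg _) (hm x hx h)
  have h1 := hmono hs ht hst
  by_contra h2
  push Not at h2
  have h3 : expNegInvGlue (q t) = 0 := expNegInvGlue.zero_of_nonpos h2
  have h4 := expNegInvGlue.pos_of_pos h0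
  simp only [h3] at h1
  linarith

/-- a profile with vanishing derivative where it is positive -/
theorem const_of {q : ℝ → ℝ} (hq : ContDiff ℝ ∞ q)
    (hm : ∀ t ∈ Ioo (-1 : ℝ) 1, 0 < q t → deriv q t = 0) {s : ℝ} (hs : s ∈ Icc (-1 : ℝ) 1)
    (h0 : 0 < q s) : ∀ t ∈ Icc (-1 : ℝ) 1, q t = q s := by
  have hconst : ∀ {r : ℝ → ℝ} (_ : Continuous r) (_ : ∀ t ∈ Ioo (-1 : ℝ) 1, HasDerivAt r 0 t),
      ∀ t ∈ Icc (-1 : ℝ) 1, r t = r (-1) := by
    intro r hr hr' t ht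
    have hd : DifferentiableOn ℝ r (interior (Icc (-1 : ℝ) 1)) := by
      rw [interior_Icc]
      exact fun x hx => (hr' x hx).differentiableAt.differentiableWithinAt
    have h1 : MonotoneOn r (Icc (-1 : ℝ) 1) :=
      monotoneOn_of_deriv_nonneg (convex_Icc _ _) hr.continuousOn hd fun x hx => by
        rw [interior_Icc] at hx
        rw [(hr' x hx).deriv]
    have h2 : AntitoneOn r (Icc (-1 : ℝ) 1) :=
      antitoneOn_of_deriv_nonpos (convex_Icc _ _) hr.continuousOn hd fun x hx => by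
        rw [interior_Icc] at hx
        rw [(hr' x hx).deriv]
    have h0 : (-1 : ℝ) ∈ Icc (-1 : ℝ) 1 := by constructor <;> norm_num
    exact le_antisymm (h2 h0 ht ht.1) (h1 h0 ht ht.1)
  have hpos : ∀ t ∈ Icc (-1 : ℝ) 1, 0 < q t := by
    have h1 : ∀ t ∈ Icc (-1 : ℝ) 1, expNegInvGlue (q t) = expNegInvGlue (q (-1)) := by
      refine hconst (r := fun t => expNegInvGlue (q t))
        (((expNegInvGlue.contDiff (n := 0)).continuous).comp hq.continuous) fun t ht => ?_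
      have h2 := glue_comp_deriv hq t
      have h3 : deriv expNegInvGlue (q t) * deriv q t = 0 := by
        rcases le_or_gt (q t) 0 with h | h
        · rw [deriv_glue_of_nonpos h, zero_mul]
        · rw [hm t ht h, mul_zero]
      rwa [h3] at h2
    intro t ht
    by_contra h2
    push Not at h2
    have h3 : expNegInvGlue (q t) = 0 := expNegInvGlue.zero_of_nonpos h2
    have h4 := expNegInvGlue.pos_of_pos h0
    rw [h1 s hs, ← h1 t ht, h3] at h4
    exact lt_irrefl _ h4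
  have h1 := hconst hq.continuous fun t ht => by
    have h2 : HasDerivAt q (deriv q t) t := ((hq.differentiable (by simp)) t).hasDerivAt
    rwa [hm t ht (hpos t (Ioo_subset_Icc_self ht))] at h2
  intro t ht
  rw [h1 t ht, h1 s hs]

theorem cf_zero_zero (x : S4) : cf 0 0 x = 0 := by
  unfold cf
  simp

theorem inner_cf (p : E5) (x : S4) : ⟪p, cf p 0 x⟫_ℝ = ⟪p, p⟫_ℝ - ⟪p, (x : E5)⟫_ℝ ^ 2 := by
  unfold cf
  rw [inner_add_right, inner_sub_right, inner_smul_right]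
  simp
  ring

theorem exists_height {p : E5} (hp : ‖p‖ = 1) {t : ℝ} (ht : t ∈ Icc (-1 : ℝ) 1) :
    ∃ x : S4, ⟪p, (x : E5)⟫_ℝ = t := by
  have hrank : 1 < Module.rank ℝ E5 := by
    rw [← Module.finrank_eq_rank, finrank_euclideanSpace_fin]
    norm_num
  have hc := isPreconnected_sphere hrank (0 : E5) 1
  have h1 : p ∈ Metric.sphere (0 : E5) 1 := by rw [mem_sphere_zero_iff_norm, hp]
  have h2 : -p ∈ Metric.sphere (0 : E5) 1 := by rw [mem_sphere_zero_iff_norm, norm_neg, hp]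
  have hcont : ContinuousOn (fun y : E5 => ⟪p, y⟫_ℝ) (Metric.sphere (0 : E5) 1) :=
    (continuous_const.inner continuous_id).continuousOn
  have h3 := hc.intermediate_value h2 h1 hcont
  have h4 : ⟪p, p⟫_ℝ = 1 := by rw [real_inner_self_eq_norm_sq, hp]; norm_num
  have h5 : t ∈ (fun y : E5 => ⟪p, y⟫_ℝ) '' Metric.sphere (0 : E5) 1 := by
    apply h3
    simp only [inner_neg_right, h4]
    exact ht
  obtain ⟨y, hy, hy1⟩ := h5
  exact ⟨⟨y, hy⟩, hy1⟩

theorem height_mem {p : E5} (hp : ‖p‖ = 1) (x : S4) : ⟪p, (x : E5)⟫_ℝ ∈ Icc (-1 : ℝ) 1 := by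
  have h := abs_real_inner_le_norm p (x : E5)
  rw [hp, S4_norm, mul_one] at h
  exact abs_le.1 h

/-- **Zonal functions** whose profile is nondecreasing where it is positive. -/
theorem zonal {q : ℝ → ℝ} (hq : ContDiff ℝ ∞ q) {p : E5} (hp : ‖p‖ = 1)
    (hm : ∀ t ∈ Ioo (-1 : ℝ) 1, 0 < q t → 0 ≤ deriv q t) :
    IsPaneitzCurvature (fun x : S4 => q ⟪p, (x : E5)⟫_ℝ) ↔
      ∃ c : ℝ, 0 < c ∧ ∀ x : S4, q ⟪p, (x : E5)⟫_ℝ = c := by
  constructor
  · intro hP
    obtain ⟨x₀, hx₀⟩ := exists_pos hP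
    by_cases hz : ∀ t ∈ Ioo (-1 : ℝ) 1, 0 < q t → deriv q t = 0
    · refine ⟨q ⟪p, (x₀ : E5)⟫_ℝ, hx₀, fun x => ?_⟩
      exact const_of hq hz (height_mem hp x₀) hx₀ _ (height_mem hp x)
    · exfalso
      push Not at hz
      obtain ⟨t, ht, ht0, ht1⟩ := hz
      obtain ⟨x₁, hx₁⟩ := exists_height hp (Ioo_subset_Icc_self ht)
      have hQ : Sm (fun x : S4 => q ⟪p, (x : E5)⟫_ℝ) := sm_comp (sm_inner p) hq
      have hdd : ∀ x : S4, dd (fun x : S4 => q ⟪p, (x : E5)⟫_ℝ) x (cf p 0 x) =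
          deriv q ⟪p, (x : E5)⟫_ℝ * (1 - ⟪p, (x : E5)⟫_ℝ ^ 2) := by
        intro x
        have h4 : ⟪p, p⟫_ℝ = 1 := by rw [real_inner_self_eq_norm_sq, hp]; norm_num
        rw [dd_comp (sm_inner p) hq, dd_inner, cf_tangent p (A := 0) (by simp), inner_cf, h4]
        ring
      have hnn : ∀ x : S4, 0 < q ⟪p, (x : E5)⟫_ℝ →
          0 ≤ deriv q ⟪p, (x : E5)⟫_ℝ * (1 - ⟪p, (x : E5)⟫_ℝ ^ 2) := by
        intro x hx
        have h1 := height_mem hp x
        rcases eq_or_lt_of_le h1.1 with h2 | h2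
        · rw [← h2]; norm_num
        rcases eq_or_lt_of_le h1.2 with h3 | h3
        · rw [h3]; norm_num
        · exact mul_nonneg (hm _ ⟨h2, h3⟩ hx) (by nlinarith)
      refine two_field hQ p 0 (A := 0) (B := 0) (by simp) (by simp) (fun x hx => ?_)
        (fun x _ => ?_) (fun x y hx hy => ?_) (Or.inl ⟨x₁, ?_, ?_⟩) hP
      · rw [hdd]; exact hnn x hx
      · rw [cf_zero_zero, dd_zero]
      · have h1 : ⟪p, (y : E5)⟫_ℝ < ⟪p, (x : E5)⟫_ℝ := by
          by_contra h2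
          push Not at h2
          have h3 := upper hq hm (height_mem hp x) (height_mem hp y) h2 hx
          linarith
        simp only [sub_zero, inner_sub_right, sub_self, _root_.zero_apply, inner_zero_left]
        linarith
      · simp only [hx₁]; exact ht0
      · rw [hdd, hx₁]
        exact mul_pos (lt_of_le_of_ne (hm t ht ht0) (Ne.symm ht1)) (by nlinarith [ht.1, ht.2])
  · rintro ⟨c, hc, hc1⟩
    have h := isPaneitzCurvature_of_sm (sm_const (Real.log (6 / c) / 4))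
    have h2 : ∀ x : S4, paneitz (fun _ : S4 => Real.log (6 / c) / 4) x = 0 :=
      fun x => paneitz_const _ x
    have h3 : (fun x : S4 => q ⟪p, (x : E5)⟫_ℝ) = fun x : S4 =>
        Real.exp (-(4 * (Real.log (6 / c) / 4))) *
          (paneitz (fun _ : S4 => Real.log (6 / c) / 4) x + 6) := by
      funext x
      rw [h2, hc1]
      have h4 : -(4 * (Real.log (6 / c) / 4)) = -Real.log (6 / c) := by ring
      rw [h4, Real.exp_neg, Real.exp_log (by positivity)]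
      field_simp
      ring
    rw [h3]
    exact h

end Pool.Agent.Helper59_Vir
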